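import Pool.Agent.helper69.SN.SpecB

/-! Row sn:xPRX: the proximal map of a convex function. -/

open scoped Pointwise ContDiff
open MeasureTheory Set Filter Topology

set_option linter.unusedVariables false

namespace Pool.Agent.helper69.SN

open Pool.Agent.helper83.SC

theorem PRX_cont {m : ℕ} {κ : E m → ℝ} (h : CV κ) : Continuous κ :=
  (ConvexOn.locallyLipschitz h).continuous

/-- A convex function is bounded below by a cone. -/
theorem PRX_low {m : ℕ} {κ : E m → ℝ} (h : CV κ) : ∃ C : ℝ, 0 ≤ C ∧ ∀ y, -C * (1 + ‖y‖) ≤ κ y := by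
  obtain ⟨B, hB⟩ := (isCompact_closedBall (0 : E m) 1).exists_bound_of_continuousOn
    (PRX_cont h).continuousOn
  have hB0 : |κ 0| ≤ B := by simpa using hB 0 (by simp)
  have hBn : 0 ≤ B := (abs_nonneg _).trans hB0
  refine ⟨2 * B, by linarith, fun y => ?_⟩
  rcases le_or_gt ‖y‖ 1 with hy | hy
  · have h1 := hB y (by simpa using hy)
    rw [Real.norm_eq_abs] at h1
    have h2 := (abs_le.1 h1).1
    nlinarith [norm_nonneg y]
  · have hy0 : 0 < ‖y‖ := by linarith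
    have hz : ‖(‖y‖⁻¹ • y)‖ = 1 := by
      rw [norm_smul, norm_inv, norm_norm, inv_mul_cancel₀ hy0.ne']
    have h1 := hB (‖y‖⁻¹ • y) (by simp [hz])
    rw [Real.norm_eq_abs] at h1
    have h2 := (abs_le.1 h1).1
    have h3 := h.2 (mem_univ y) (mem_univ (0 : E m)) (show (0 : ℝ) ≤ ‖y‖⁻¹ by positivity)
      (show 0 ≤ 1 - ‖y‖⁻¹ by rw [sub_nonneg]; exact inv_le_one_of_one_le₀ hy.le) (by ring)
    rw [smul_zero, add_zero, smul_eq_mul, smul_eq_mul] at h3
    have h4 := (abs_le.1 hB0)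
    have h5 : ‖y‖ * κ (‖y‖⁻¹ • y) ≤ κ y + (‖y‖ - 1) * κ 0 := by
      have := mul_le_mul_of_nonneg_left h3 hy0.le
      have e1 : ‖y‖ * (‖y‖⁻¹ * κ y + (1 - ‖y‖⁻¹) * κ 0) = κ y + (‖y‖ - 1) * κ 0 := by
        field_simp
      rwa [e1] at this
    nlinarith [norm_nonneg y]

/-- Existence of the minimizer. -/
theorem PRX_ex {m : ℕ} {κ : E m → ℝ} (h : CV κ) {e : ℝ} (he : 0 < e) (x : E m) :
    ∃ p, ∀ y, κ p + ‖x - p‖ ^ 2 / (2 * e) ≤ κ y + ‖x - y‖ ^ 2 / (2 * e) := by
  obtain ⟨C, hC0, hC⟩ := PRX_low h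
  have hcont : Continuous fun y => κ y + ‖x - y‖ ^ 2 / (2 * e) := by
    have := PRX_cont h
    fun_prop
  refine hcont.exists_forall_le (tendsto_atTop.2 fun b => ?_)
  have hn : Tendsto (fun y : E m => ‖y‖) (cocompact (E m)) atTop := tendsto_norm_cocompact_atTop
  have hq : Tendsto (fun t : ℝ => t * (t / (2 * e) - (C + ‖x‖ / e)) - C) atTop atTop := by
    apply tendsto_atTop_add_const_right
    apply Tendsto.atTop_mul_atTop₀ tendsto_id
    apply tendsto_atTop_add_const_right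
    exact tendsto_id.atTop_div_const (by positivity)
  filter_upwards [(hq.comp hn).eventually_ge_atTop b] with y hy
  refine hy.trans ?_
  have h1 := hC y
  have h2 : (‖y‖ - ‖x‖) ^ 2 ≤ ‖x - y‖ ^ 2 := by
    have h3 : |‖y‖ - ‖x‖| ≤ ‖x - y‖ := by
      rw [norm_sub_rev]; exact abs_norm_sub_norm_le y x
    rw [← sq_abs (‖y‖ - ‖x‖)]
    exact pow_le_pow_left₀ (abs_nonneg _) h3 2
  have h4 : (‖y‖ - ‖x‖) ^ 2 / (2 * e) ≤ ‖x - y‖ ^ 2 / (2 * e) := by gcongr
  have h5 : (‖y‖ - ‖x‖) ^ 2 / (2 * e) = ‖y‖ * (‖y‖ / (2 * e) - ‖x‖ / e) + ‖x‖ ^ 2 / (2 * e) := by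
    field_simp
    ring
  have h6 : 0 ≤ ‖x‖ ^ 2 / (2 * e) := by positivity
  simp only [Function.comp]
  nlinarith

/-- The variational inequality. -/
theorem PRX_vi {m : ℕ} {κ : E m → ℝ} (h : CV κ) {e : ℝ} (he : 0 < e) {P : E m → E m}
    (hP : IsPrx κ e P) (x z : E m) :
    κ (P x) + inner ℝ (e⁻¹ • (x - P x)) (z - P x) ≤ κ z := by
  set a := x - P x with ha
  set b := z - P x with hb
  have key : ∀ t : ℝ, 0 < t → t ≤ 1 →
      κ (P x) + inner ℝ (e⁻¹ • a) b ≤ κ z + t * (‖b‖ ^ 2 / (2 * e)) := by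
    intro t ht ht1
    have h1 := hP x (P x + t • b)
    have h2 : κ (P x + t • b) ≤ (1 - t) * κ (P x) + t * κ z := by
      have h3 := h.2 (mem_univ (P x)) (mem_univ z) (show 0 ≤ 1 - t by linarith) ht.le (by ring)
      have e1 : (1 - t) • P x + t • z = P x + t • b := by
        rw [hb, smul_sub, sub_smul, one_smul]; abel
      rwa [e1, smul_eq_mul, smul_eq_mul] at h3
    have h4 : ‖x - (P x + t • b)‖ ^ 2 = ‖a‖ ^ 2 - 2 * (t * inner ℝ a b) + t ^ 2 * ‖b‖ ^ 2 := by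
      have e2 : x - (P x + t • b) = a - t • b := by rw [ha]; abel
      rw [e2, norm_sub_sq_real, inner_smul_right, norm_smul, mul_pow, Real.norm_eq_abs, sq_abs]
    rw [h4] at h1
    have h5 : inner ℝ (e⁻¹ • a) b = e⁻¹ * inner ℝ a b := by rw [real_inner_smul_left]
    rw [h5]
    have h6 : (‖a‖ ^ 2 - 2 * (t * inner ℝ a b) + t ^ 2 * ‖b‖ ^ 2) / (2 * e) =
        ‖a‖ ^ 2 / (2 * e) - t * (e⁻¹ * inner ℝ a b) + t * (t * (‖b‖ ^ 2 / (2 * e))) := by
      field_simp
    rw [h6] at h1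
    have h7 : t * (κ (P x) + e⁻¹ * inner ℝ a b) ≤ t * (κ z + t * (‖b‖ ^ 2 / (2 * e))) := by
      nlinarith
    exact le_of_mul_le_mul_left h7 ht
  have h0 : 0 ≤ ‖b‖ ^ 2 / (2 * e) := by positivity
  refine le_of_forall_pos_le_add fun ε hε => ?_
  rcases h0.eq_or_lt with h1 | h1
  · have := key 1 one_pos le_rfl
    rw [← h1] at this
    linarith
  · have h2 := key (min 1 (ε / (‖b‖ ^ 2 / (2 * e)))) (by positivity) (min_le_left _ _)
    have h3 : min 1 (ε / (‖b‖ ^ 2 / (2 * e))) * (‖b‖ ^ 2 / (2 * e)) ≤ ε := by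
      calc _ ≤ (ε / (‖b‖ ^ 2 / (2 * e))) * (‖b‖ ^ 2 / (2 * e)) := by
            gcongr; exact min_le_right _ _
        _ = ε := div_mul_cancel₀ _ h1.ne'
    linarith

/-- The value of the envelope. -/
theorem PRX_val {m : ℕ} {κ : E m → ℝ} {e : ℝ} {P : E m → E m} (hP : IsPrx κ e P) (x : E m) :
    mor κ e x = κ (P x) + ‖x - P x‖ ^ 2 / (2 * e) := by
  unfold mor
  have hb : BddBelow (range fun y => κ y + ‖x - y‖ ^ 2 / (2 * e)) := by
    refine ⟨κ (P x) + ‖x - P x‖ ^ 2 / (2 * e), ?_⟩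
    rintro _ ⟨y, rfl⟩
    exact hP x y
  exact le_antisymm (ciInf_le hb (P x)) (le_ciInf fun y => hP x y)

/-- Lower support of the envelope. -/
theorem PRX_sup {m : ℕ} {κ : E m → ℝ} (h : CV κ) {e : ℝ} (he : 0 < e) {P : E m → E m}
    (hP : IsPrx κ e P) (x y : E m) :
    mor κ e x + inner ℝ (e⁻¹ • (x - P x)) (y - x) ≤ mor κ e y := by
  rw [PRX_val hP, PRX_val hP]
  have h1 := PRX_vi h he hP x (P y)
  set a := x - P x with ha
  set c := y - P y with hc
  have h2 : ‖c‖ ^ 2 / (2 * e) - ‖a‖ ^ 2 / (2 * e) ≥ inner ℝ (e⁻¹ • a) (c - a) := by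
    have h3 : ‖c‖ ^ 2 = ‖a‖ ^ 2 + 2 * inner ℝ a (c - a) + ‖c - a‖ ^ 2 := by
      have : c = a + (c - a) := by abel
      conv_lhs => rw [this]
      rw [norm_add_sq_real]
    rw [h3, real_inner_smul_left]
    have h4 : (‖a‖ ^ 2 + 2 * inner ℝ a (c - a) + ‖c - a‖ ^ 2) / (2 * e) - ‖a‖ ^ 2 / (2 * e) =
        e⁻¹ * inner ℝ a (c - a) + ‖c - a‖ ^ 2 / (2 * e) := by
      field_simp
      ring
    rw [h4]
    have : 0 ≤ ‖c - a‖ ^ 2 / (2 * e) := by positivity
    linarith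
  have h5 : inner ℝ (e⁻¹ • a) (y - x) =
      inner ℝ (e⁻¹ • a) (P y - P x) + inner ℝ (e⁻¹ • a) (c - a) := by
    rw [← inner_add_right]
    congr 1
    rw [ha, hc]; abel
  rw [h5]
  linarith

theorem xPRX : xPRX_stmt := by
  intro m κ e h he
  choose P hP using PRX_ex h he
  have hPx : IsPrx κ e P := hP
  have hfirm : ∀ x y, 0 ≤ inner ℝ ((x - P x) - (y - P y)) (P x - P y) := by
    intro x y
    have h1 := PRX_vi h he hPx x (P y)
    have h2 := PRX_vi h he hPx y (P x)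
    rw [real_inner_smul_left] at h1 h2
    have h3 : inner ℝ (x - P x) (P y - P x) = - inner ℝ (x - P x) (P x - P y) := by
      rw [← inner_neg_right, neg_sub]
    rw [h3] at h1
    rw [inner_sub_left]
    have h4 : e⁻¹ * (inner ℝ (y - P y) (P x - P y) - inner ℝ (x - P x) (P x - P y)) ≤ 0 := by
      nlinarith
    have h5 : 0 < e⁻¹ := inv_pos.2 he
    by_contra h6
    push Not at h6
    have : 0 < e⁻¹ * (inner ℝ (y - P y) (P x - P y) - inner ℝ (x - P x) (P x - P y)) :=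
      mul_pos h5 (by linarith)
    linarith
  have hdec : ∀ x y : E m, ‖P x - P y‖ ≤ ‖x - y‖ ∧ ‖(x - P x) - (y - P y)‖ ≤ ‖x - y‖ := by
    intro x y
    have h1 := hfirm x y
    set b := P x - P y with hb
    set a := (x - P x) - (y - P y) with ha
    have h2 : x - y = a + b := by rw [ha, hb]; abel
    have h3 : ‖x - y‖ ^ 2 = ‖a‖ ^ 2 + 2 * inner ℝ a b + ‖b‖ ^ 2 := by
      rw [h2, norm_add_sq_real]
    constructor
    · refine le_of_sq_le_sq ?_ (norm_nonneg _)
      nlinarith [sq_nonneg ‖a‖]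
    · refine le_of_sq_le_sq ?_ (norm_nonneg _)
      nlinarith [sq_nonneg ‖b‖]
  refine ⟨P, hPx, PRX_val hPx, fun x y => (hdec x y).1, fun x y => (hdec x y).2, fun x => ?_, ?_,
    fun x => ?_, PRX_vi h he hPx⟩
  · rw [hasGradientAt_iff_isLittleO]
    have hO : (fun y => mor κ e y - mor κ e x - inner ℝ (e⁻¹ • (x - P x)) (y - x)) =O[𝓝 x]
        fun y => ‖y - x‖ ^ 2 := by
      refine Asymptotics.IsBigO.of_bound (1 / (2 * e)) (Eventually.of_forall fun y => ?_)
      have h1 := PRX_sup h he hPx x y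
      have h2 : mor κ e y ≤ κ (P x) + ‖y - P x‖ ^ 2 / (2 * e) := by
        rw [PRX_val hPx]; exact hP y (P x)
      have h3 : ‖y - P x‖ ^ 2 = ‖x - P x‖ ^ 2 + 2 * inner ℝ (x - P x) (y - x) + ‖y - x‖ ^ 2 := by
        have : y - P x = (x - P x) + (y - x) := by abel
        rw [this, norm_add_sq_real]
      have h4 : κ (P x) + ‖y - P x‖ ^ 2 / (2 * e) = mor κ e x +
          inner ℝ (e⁻¹ • (x - P x)) (y - x) + 1 / (2 * e) * ‖y - x‖ ^ 2 := by
        rw [h3, PRX_val hPx x, real_inner_smul_left]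
        field_simp
        ring
      rw [h4] at h2
      rw [Real.norm_eq_abs, Real.norm_eq_abs, abs_of_nonneg (sq_nonneg ‖y - x‖), abs_of_nonneg
        (by linarith)]
      linarith
    refine hO.trans_isLittleO ?_
    have h1 : (fun y : E m => ‖y - x‖ ^ 2) = fun y => ‖y - x‖ * ‖y - x‖ := by
      funext y; ring
    rw [h1]
    have h2 : Tendsto (fun y : E m => ‖y - x‖) (𝓝 x) (𝓝 0) := by
      have : Tendsto (fun y : E m => ‖y - x‖) (𝓝 x) (𝓝 ‖x - x‖) :=
        (Continuous.tendsto (by fun_prop) x)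
      simpa using this
    have h3 := (Asymptotics.isLittleO_one_iff ℝ).2 h2
    have h4 := h3.mul_isBigO (Asymptotics.isBigO_refl (fun y : E m => ‖y - x‖) (𝓝 x))
    simp only [one_mul] at h4
    exact h4.of_norm_right
  · refine ⟨convex_univ, fun x _ y _ a b ha hb hab => ?_⟩
    set z := a • x + b • y with hz
    have h1 := PRX_sup h he hPx z x
    have h2 := PRX_sup h he hPx z y
    set g := e⁻¹ • (z - P z) with hg
    have h3 : a * inner ℝ g (x - z) + b * inner ℝ g (y - z) = 0 := by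
      rw [← real_inner_smul_right, ← real_inner_smul_right, ← inner_add_right]
      have : a • (x - z) + b • (y - z) = 0 := by
        have e1 : a • (x - z) + b • (y - z) = (a • x + b • y) - (a + b) • z := by
          rw [smul_sub, smul_sub, add_smul]; abel
        rw [e1, hab, one_smul, ← hz, sub_self]
      rw [this, inner_zero_right]
    rw [smul_eq_mul, smul_eq_mul]
    have h4 := mul_le_mul_of_nonneg_left h1 ha
    have h5 := mul_le_mul_of_nonneg_left h2 hb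
    have h6 : mor κ e z = a * mor κ e z + b * mor κ e z := by rw [← add_mul, hab, one_mul]
    nlinarith
  · rw [PRX_val hPx]
    have := hP x x
    simpa using this

end Pool.Agent.helper69.SN
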