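import Pool.Agent.helper40.SN.SpecD
import Pool.Agent.helper53.SC.HS1
import Pool.Agent.helper53.SC.HS2

/-! Row sn:dVAD: adding a member of the class to the cap. -/

open scoped Pointwise ContDiff
open MeasureTheory Set Filter Topology Pool.Agent.helper83.SC Pool.Agent.helper69.SN

set_option linter.unusedVariables false

namespace Pool.Agent.helper40.SN

theorem dVAD_sc {m n : ℕ} (c : ℝ) (lam : Fin n → ℝ) (A : Fin n → Mat m) :
    sc (fun _ => c) (sc lam A) = sc (fun i => c * lam i) A := by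
  funext i
  simp only [sc, smul_smul]

theorem dVAD_gg (hHOM : aHOM_stmt) {m n : ℕ} {c : ℝ} (hc : 0 < c) {B : Fin n → Mat m} {M : Mat m}
    (h : M ∈ GG B) : c • M ∈ GG (sc (fun _ => c) B) := by
  refine ⟨?_, fun t ht => ?_⟩
  · have := h.1
    unfold Matrix.IsSymm at *
    rw [Matrix.transpose_smul, this]
  · have h1 := h.2 (t / c) (by positivity)
    have h2 := (hHOM B M (M + (t / c) • (1 : Mat m)) c 0).1
    have h3 : c • (M + (t / c) • (1 : Mat m)) = c • M + t • (1 : Mat m) := by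
      rw [smul_add, smul_smul, mul_div_cancel₀ _ hc.ne']
    rw [h3] at h2
    rw [h2]
    have h4 : t ^ m = c ^ m * (t / c) ^ m := by
      rw [← mul_pow, mul_div_cancel₀ _ hc.ne']
    rw [h4]
    gcongr

theorem dVAD_hess {m : ℕ} {v Y : E m → ℝ} (hv : ContDiff ℝ ∞ v) (hY : ContDiff ℝ ∞ Y) (c : ℝ)
    (x : E m) : hess (fun x => v x + c * (Y x - 1)) x = hess v x + c • hess Y x := by
  have h1 : ContDiff ℝ ∞ fun y => Y y - 1 := hY.sub contDiff_const
  have h2 : ContDiff ℝ ∞ fun y => c * (Y y - 1) := contDiff_const.mul h1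
  rw [hess_add_of hv h2 x, hess_smul_of h1 c x]
  congr 2
  ext i j
  have h3 : pd j (fun y => Y y - 1) = pd j Y := by
    funext y
    simp only [pd, fderiv_sub_const]
  simp only [hess, Matrix.of_apply, h3]

theorem dVAD (hHOM : aHOM_stmt) (hSUP : aSUP_stmt) (hPSD : aPSD_stmt) : dVAD_stmt := by
  intro m n T K c γ a v Y hK hc hc4 hγ ha hv hvG hY
  have key : ∀ x : E m, ‖x‖ ≤ 1 →
      hess (fun x => v x + c * (Y x - 1)) x ∈ GG (hs a (wt T K ∅ 0) x) ∧
      c ^ m * Ph (hs a (wt T K ∅ 0) x) (hess Y x)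
        ≤ Ph (hs a (wt T K ∅ 0) x) (hess (fun x => v x + c * (Y x - 1)) x) := by
    intro x hx
    set A : Fin n → Mat m := fun i => hess (a i) x with hA
    have hhs : ∀ lam : Fin n → ℝ, hs a lam x = sc lam A := fun lam => rfl
    have hPA : Psd A := fun i => hess_psd_of (ha i).1 (ha i).2 x
    have hscP : ∀ lam : Fin n → ℝ, (∀ i, 0 ≤ lam i) → Psd (sc lam A) := fun lam hl i =>
      (hPA i).smul (hl i)
    have hw : ∀ t : ℝ, 0 ≤ t → ∀ i, 0 ≤ wt T t ∅ 0 i := by
      intro t ht i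
      unfold wt
      split_ifs <;> simp_all
    have hwv : ∀ (t : ℝ) (i : Fin n), wt T t ∅ 0 i = if i ∈ T then t else 0 := by
      intro t i
      unfold wt
      split_ifs <;> simp_all
    rw [hhs, dVAD_hess hv hY.1 c x]
    -- the Hessian of `v`
    have h1 : hess v x ∈ GG (sc (wt T 1 ∅ 0) A) := by
      have g1 := hvG x
      rw [hhs] at g1
      have g2 : γ • (1 : Mat m) ∈ GG (sc (fun _ => (0 : ℝ)) A) :=
        hPSD _ (hscP _ fun _ => le_rfl) _ (Matrix.PosSemidef.one.smul hγ)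
      have g3 := (hSUP A hPA _ _ (hw 1 zero_le_one) (fun _ => le_rfl) _ _ g1 g2).1
      simpa using g3
    have h2 : c • hess Y x ∈ GG (sc (fun i => c * wt T K ∅ 0 i) A) := by
      have g1 := dVAD_gg hHOM hc (hY.2 x hx)
      rw [hhs, dVAD_sc] at g1
      exact g1
    have hl0 : ∀ i, 0 ≤ c * wt T K ∅ 0 i := fun i => mul_nonneg hc.le (hw K (by linarith) i)
    obtain ⟨h3, h4⟩ := hSUP A hPA _ _ hl0 (hw 1 zero_le_one) _ _ h2 h1
    have hl1 : ∀ i, 0 ≤ c * wt T K ∅ 0 i + wt T 1 ∅ 0 i := fun i =>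
      add_nonneg (hl0 i) (hw 1 zero_le_one i)
    have hK' : 0 ≤ K - 1 - c * K := by nlinarith
    have h0 : (0 : Mat m) ∈ GG (sc (wt T (K - 1 - c * K) ∅ 0) A) :=
      hPSD _ (hscP _ (hw _ hK')) _ Matrix.PosSemidef.zero
    obtain ⟨h5, h6⟩ := hSUP A hPA _ _ hl1 (hw _ hK') _ _ h3 h0
    have h7 : (fun i => c * wt T K ∅ 0 i + wt T 1 ∅ 0 i + wt T (K - 1 - c * K) ∅ 0 i) =
        wt T K ∅ 0 := by
      funext i
      rw [hwv, hwv, hwv]
      split_ifs <;> ring
    rw [h7, add_zero] at h5 h6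
    rw [add_comm (hess v x)]
    refine ⟨h5, le_trans ?_ (h4.trans h6)⟩
    have h8 := (hHOM (sc (wt T K ∅ 0) A) 0 (hess Y x) c 0).1
    rw [dVAD_sc] at h8
    rw [h8]
  exact ⟨⟨hv.add (contDiff_const.mul (hY.1.sub contDiff_const)), fun x hx => (key x hx).1⟩,
    fun x hx => (key x hx).2⟩

end Pool.Agent.helper40.SN
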